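import Mathlib

namespace Pool.Agent.V11258.SG

open Set Filter

/-- The ambient Cantor space. -/
abbrev Z := ℕ × ℕ × ℕ → Bool

def box2 (B : ℕ) : Set (ℕ × ℕ) := {c | c.1 < B ∧ c.2 < B}
def box3 (B : ℕ) : Set (ℕ × ℕ × ℕ) := {i | i.1 < B ∧ i.2.1 < B ∧ i.2.2 < B}

theorem box2_mono {B B' : ℕ} (h : B ≤ B') : box2 B ⊆ box2 B' := fun _ hc =>
  ⟨hc.1.trans_le h, hc.2.trans_le h⟩
theorem box3_mono {B B' : ℕ} (h : B ≤ B') : box3 B ⊆ box3 B' := fun _ hc =>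
  ⟨hc.1.trans_le h, hc.2.1.trans_le h, hc.2.2.trans_le h⟩

theorem box2_finite (B : ℕ) : (box2 B).Finite := by
  refine ((finite_Iio B).prod (finite_Iio B)).subset ?_
  rintro ⟨a, b⟩ ⟨h1, h2⟩
  exact ⟨h1, h2⟩

theorem box3_finite (B : ℕ) : (box3 B).Finite := by
  refine ((finite_Iio B).prod ((finite_Iio B).prod (finite_Iio B))).subset ?_
  rintro ⟨a, b, c⟩ ⟨h1, h2, h3⟩
  exact ⟨h1, h2, h3⟩

/-- `x` and `y` agree on the box of size `B` -/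
def agree (B : ℕ) (x y : Z) : Prop := ∀ i ∈ box3 B, x i = y i

theorem agree.refl (B : ℕ) (x : Z) : agree B x x := fun _ _ => rfl
theorem agree.symm {B : ℕ} {x y : Z} (h : agree B x y) : agree B y x := fun i hi => (h i hi).symm
theorem agree.trans {B : ℕ} {x y z : Z} (h : agree B x y) (h' : agree B y z) : agree B x z :=
  fun i hi => (h i hi).trans (h' i hi)
theorem agree.mono {B B' : ℕ} {x y : Z} (h : agree B' x y) (hB : B ≤ B') : agree B x y :=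
  fun i hi => h i (box3_mono hB hi)

/-- `z` is infinite at the positions in `C`. -/
def ZC (C : Set (ℕ × ℕ)) : Set Z := {z | ∀ c ∈ C, ∀ k, z (c.1, c.2, k) = false}

theorem ZC_anti {C C' : Set (ℕ × ℕ)} (h : C ⊆ C') : ZC C' ⊆ ZC C := fun _ hz c hc k => hz c (h hc) k

/-- The point equal to `s` on the box, and then `false` over `C`, `true` elsewhere. -/
noncomputable def qpt (B : ℕ) (C : Set (ℕ × ℕ)) (s : Z) : Z := by
  classical
  exact fun i => if i ∈ box3 B then s i else if (i.1, i.2.1) ∈ C then false else true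

theorem qpt_agree (B : ℕ) (C : Set (ℕ × ℕ)) (s : Z) : agree B s (qpt B C s) := by
  intro i hi
  simp [qpt, hi]

theorem qpt_ZC (B : ℕ) (C C' : Set (ℕ × ℕ)) (s : Z) (hs : s ∈ ZC C')
    (hC : C ⊆ C' ∪ (box2 B)ᶜ) : qpt B C s ∈ ZC C := by
  intro c hc k
  by_cases hi : (c.1, c.2, k) ∈ box3 B
  · have : c ∈ C' := by
      rcases hC hc with h | h
      · exact h
      · exact absurd ⟨hi.1, hi.2.1⟩ h
    simp only [qpt, hi, if_true]
    exact hs c this k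
  · simp only [qpt, hi, if_false]
    rw [if_pos]
    exact hc

theorem qpt_true (B : ℕ) (C : Set (ℕ × ℕ)) (s : Z) (n m k : ℕ) (h : (n, m) ∉ C) (hk : B ≤ k) :
    qpt B C s (n, m, k) = true := by
  have : ((n, m, k) : ℕ × ℕ × ℕ) ∉ box3 B := fun h => absurd h.2.2 (not_lt.mpr hk)
  simp [qpt, this, h]

theorem exists_agree_of_open {W : Set Z} (hW : IsOpen W) {x : Z} (hx : x ∈ W) :
    ∃ B, ∀ y, agree B x y → y ∈ W := by
  obtain ⟨I, u, h1, h2⟩ := isOpen_pi_iff.mp hW x hx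
  refine ⟨I.sup (fun i => i.1 + i.2.1 + i.2.2) + 1, fun y hy => h2 fun i hi => ?_⟩
  have h3 : i.1 + i.2.1 + i.2.2 ≤ I.sup (fun i => i.1 + i.2.1 + i.2.2) :=
    Finset.le_sup (f := fun i : ℕ × ℕ × ℕ => i.1 + i.2.1 + i.2.2) hi
  have h4 : i ∈ box3 (I.sup (fun i => i.1 + i.2.1 + i.2.2) + 1) :=
    ⟨by omega, by omega, by omega⟩
  have h5 := hy i h4
  rw [← h5]
  exact (h1 i hi).2

/-- Countable dense set of points. -/
def Q : Set Z := {q | ∃ B C s, C ⊆ box2 B ∧ s ∈ ZC C ∧ q = qpt B C s}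

theorem agree_ind (B : ℕ) (s : Z) : ∃ A ⊆ box3 B, ∀ i ∈ box3 B, (s i = true ↔ i ∈ A) :=
  ⟨{i | i ∈ box3 B ∧ s i = true}, fun _ h => h.1, fun i hi => by
    simp only [mem_ofPred_eq]
    exact ⟨fun h => ⟨hi, h⟩, fun h => h.2⟩⟩

theorem qpt_congr {B : ℕ} {C : Set (ℕ × ℕ)} {s t : Z} (h : agree B s t) :
    qpt B C s = qpt B C t := by
  funext i
  by_cases hi : i ∈ box3 B
  · simp only [qpt, hi, if_true]; exact h i hi
  · simp only [qpt, hi, if_false]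

/-- indicator point of a set -/
noncomputable def ind (A : Set (ℕ × ℕ × ℕ)) : Z := by
  classical
  exact fun i => decide (i ∈ A)

theorem ind_iff (A : Set (ℕ × ℕ × ℕ)) (i) : ind A i = true ↔ i ∈ A := by
  simp [ind]

theorem Q_countable : Q.Countable := by
  have : Q ⊆ ⋃ B : ℕ, (fun p : Set (ℕ × ℕ) × Set (ℕ × ℕ × ℕ) => qpt B p.1 (ind p.2)) ''
      ({C | C ⊆ box2 B} ×ˢ {A | A ⊆ box3 B}) := by
    rintro q ⟨B, C, s, hC, hs, rfl⟩
    obtain ⟨A, hA, hA'⟩ := agree_ind B s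
    refine mem_iUnion.mpr ⟨B, ⟨(C, A), ⟨hC, hA⟩, ?_⟩⟩
    refine qpt_congr fun i hi => ?_
    have h1 := hA' i hi
    have h2 := ind_iff A i
    exact Bool.eq_iff_iff.mpr (h2.trans h1.symm)
  refine Countable.mono this (countable_iUnion fun B => ?_)
  exact (((box2_finite B).finite_subsets.prod (box3_finite B).finite_subsets).image _).countable

/-- `V n m` is dense below `(C, x, B)` for all `m ≥ m0`. -/
def Good (V : ℕ → Set Z) (C : Set (ℕ × ℕ)) (x : Z) (B m0 : ℕ) : Prop :=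
  ∀ m, m0 ≤ m → ∀ y ∈ ZC C, agree B x y → ∀ B', B ≤ B' → ∃ y' ∈ ZC C, agree B' y y' ∧ y' ∈ V m

theorem Good.mono {V : ℕ → Set Z} {C : Set (ℕ × ℕ)} {x x' : Z} {B B' m0 m0' : ℕ}
    (h : Good V C x B m0) (hx : agree B x x') (hB : B ≤ B') (hm : m0 ≤ m0') :
    Good V C x' B' m0' := by
  intro m hm' y hy hxy B'' hB''
  exact h m (hm.trans hm') y hy (hx.trans (hxy.mono hB)) B'' (hB.trans hB'')

/-- the promised set at `n` -/
def D (V : ℕ → Set Z) (e : ℕ) (x : Z) : Prop :=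
  ∃ C B, C ⊆ box2 B ∧ x ∈ ZC C ∧ Good V C x B e

theorem lemmaA {X : Set Z} (hQ : Q ⊆ X) {V : ℕ → Set Z} {V' : ℕ → Set Z}
    (hV : ∀ m, IsOpen (V m)) (hV' : ∀ m, IsOpen (V' m)) (hcov : ∀ m, X ⊆ V m ∪ V' m)
    (hdis : ∀ m, ∀ x ∈ X, x ∈ V m → x ∉ V' m) {e : ℕ} {x : Z} (hx : x ∈ X) (hD : D V e x)
    {m : ℕ} (hm : e ≤ m) : x ∈ V m := by
  by_contra hxV
  have hxV' : x ∈ V' m := (hcov m hx).resolve_left hxV
  obtain ⟨C, B, hC, hxC, hG⟩ := hD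
  obtain ⟨B1, hB1⟩ := exists_agree_of_open (hV' m) hxV'
  obtain ⟨y', hy', h1, h2⟩ := hG m hm x hxC (agree.refl _ _) (max B B1) (le_max_left _ _)
  have h3 : y' ∈ V' m := hB1 y' (h1.mono (le_max_right _ _))
  obtain ⟨B2, hB2⟩ := exists_agree_of_open ((hV m).inter (hV' m)) ⟨h2, h3⟩
  have h4 : qpt (max B B2) C y' ∈ X := hQ ⟨max B B2, C, y', hC.trans (box2_mono (le_max_left _ _)), hy', rfl⟩
  have h5 := hB2 _ ((qpt_agree (max B B2) C y').mono (le_max_right _ _))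
  exact hdis m _ h4 h5.1 h5.2

/-- A promise. -/
abbrev Prom := (ℕ → ℕ → Set Z) × (ℕ → ℕ)

/-- Advance. -/
def Adv (E : Set Prom) (n B B' : ℕ) : Prop :=
  ∀ (Γ C C' : Set (ℕ × ℕ)) (z z' : Z), C ⊆ box2 B → C' ⊆ box2 B → Γ ∩ box2 B ⊆ C ∪ C' →
    z ∈ ZC C → z' ∈ ZC C' →
    ∃ (C1 C1' : Set (ℕ × ℕ)) (z1 z1' : Z), C ⊆ C1 ∧ C' ⊆ C1' ∧ C1 ⊆ C ∪ Γ ∧ C1' ⊆ C' ∪ Γ ∧
      C1 ⊆ box2 B' ∧ C1' ⊆ box2 B' ∧ Γ ∩ box2 B' ⊆ C1 ∪ C1' ∧ z1 ∈ ZC C1 ∧ z1' ∈ ZC C1' ∧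
      agree B z z1 ∧ agree B z' z1' ∧
      ∀ τ ∈ E, (∀ x ∈ ZC C1, agree B' z1 x → D (τ.1 n) (τ.2 n) x) ∧
        (∀ x ∈ ZC C1', agree B' z1' x → D (τ.1 n) (τ.2 n) x)

theorem Adv.anti {E E' : Set Prom} {n B B' : ℕ} (h : Adv E n B B') (hE : E' ⊆ E) :
    Adv E' n B B' := by
  intro Γ C C' z z' h1 h2 h3 h4 h5
  obtain ⟨C1, C1', z1, z1', a1, a2, a3, a4, a5, a6, a7, a8, a9, a10, a11, a12⟩ :=
    h Γ C C' z z' h1 h2 h3 h4 h5
  exact ⟨C1, C1', z1, z1', a1, a2, a3, a4, a5, a6, a7, a8, a9, a10, a11, fun τ hτ => a12 τ (hE hτ)⟩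

theorem Adv.triv {n B B' : ℕ} (hB : B ≤ B') : Adv ∅ n B B' := by
  intro Γ C C' z z' h1 h2 h3 h4 h5
  refine ⟨C ∪ (Γ ∩ (box2 B' \ box2 B)), C', qpt B (C ∪ (Γ ∩ (box2 B' \ box2 B))) z, z',
    subset_union_left, subset_rfl, ?_, subset_union_left, ?_, h2.trans (box2_mono hB), ?_, ?_, h5,
    qpt_agree _ _ _, agree.refl _ _, by simp⟩
  · exact union_subset_union_right _ inter_subset_left
  · exact union_subset (h1.trans (box2_mono hB)) (inter_subset_right.trans sdiff_subset)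
  · rintro c ⟨hc1, hc2⟩
    by_cases hc : c ∈ box2 B
    · rcases h3 ⟨hc1, hc⟩ with h | h
      · exact Or.inl (Or.inl h)
      · exact Or.inr h
    · exact Or.inl (Or.inr ⟨hc1, hc2, hc⟩)
  · refine qpt_ZC B _ C z h4 (union_subset subset_union_left ?_)
    rintro c ⟨_, _, hc⟩
    exact Or.inr hc

theorem Adv.comp {E E' : Set Prom} {n B B' B'' : ℕ} (h : Adv E n B B') (h' : Adv E' n B' B'')
    (hB : B ≤ B') (hB' : B' ≤ B'') : Adv (E ∪ E') n B B'' := by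
  intro Γ C C' z z' h1 h2 h3 h4 h5
  obtain ⟨C1, C1', z1, z1', a1, a2, a3, a4, a5, a6, a7, a8, a9, a10, a11, a12⟩ :=
    h Γ C C' z z' h1 h2 h3 h4 h5
  obtain ⟨C2, C2', z2, z2', b1, b2, b3, b4, b5, b6, b7, b8, b9, b10, b11, b12⟩ :=
    h' Γ C1 C1' z1 z1' a5 a6 a7 a8 a9
  refine ⟨C2, C2', z2, z2', a1.trans b1, a2.trans b2, ?_, ?_, b5, b6, b7, b8, b9,
    a10.trans (b10.mono hB), a11.trans (b11.mono hB), ?_⟩
  · exact b3.trans (union_subset a3 subset_union_right)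
  · exact b4.trans (union_subset a4 subset_union_right)
  · rintro τ (hτ | hτ)
    · refine ⟨fun x hx hx' => (a12 τ hτ).1 x (ZC_anti b1 hx) (b10.trans (hx'.mono hB')),
        fun x hx hx' => (a12 τ hτ).2 x (ZC_anti b2 hx) (b11.trans (hx'.mono hB'))⟩
    · exact b12 τ hτ

theorem Adv.step {V : ℕ → ℕ → Set Z} {e : ℕ → ℕ} {S M : ℕ → ℕ → ℕ} {n : ℕ}
    (hS : ∀ B, B ≤ S n B)
    (hstep : ∀ B C z, C ⊆ box2 B → z ∈ ZC C →
      ∃ z1 ∈ ZC C, agree B z z1 ∧ Good (V n) C z1 (S n B) (M n B))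
    {B : ℕ} (he1 : M n B ≤ e n) (he2 : M n (S n B) ≤ e n) :
    Adv {(V, e)} n B (S n (S n B)) := by
  intro Γ C C' z z' h1 h2 h3 h4 h5
  obtain ⟨z1, hz1, hag, hG⟩ := hstep B C z h1 h4
  have hB1 := hS B
  have hB2 := hS (S n B)
  let C1' := C' ∪ (Γ ∩ (box2 (S n B) \ box2 B))
  have hC1' : C1' ⊆ box2 (S n B) :=
    union_subset (h2.trans (box2_mono hB1)) (inter_subset_right.trans sdiff_subset)
  have hz0' : qpt B C1' z' ∈ ZC C1' := by
    refine qpt_ZC B _ C' z' h5 (union_subset subset_union_left ?_)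
    rintro c ⟨_, _, hc⟩
    exact Or.inr hc
  obtain ⟨z1', hz1', hag', hG'⟩ := hstep (S n B) C1' _ hC1' hz0'
  let C2 := C ∪ (Γ ∩ (box2 (S n (S n B)) \ box2 (S n B)))
  have hz2 : qpt (S n B) C2 z1 ∈ ZC C2 := by
    refine qpt_ZC (S n B) _ C z1 hz1 (union_subset subset_union_left ?_)
    rintro c ⟨_, _, hc⟩
    exact Or.inr hc
  refine ⟨C2, C1', qpt (S n B) C2 z1, z1', subset_union_left, subset_union_left,
    union_subset_union_right _ inter_subset_left, union_subset_union_right _ inter_subset_left,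
    union_subset (h1.trans (box2_mono (hB1.trans hB2))) (inter_subset_right.trans sdiff_subset),
    hC1'.trans (box2_mono hB2), ?_, hz2, hz1', hag.trans ((qpt_agree _ _ _).mono hB1),
    (qpt_agree B C1' z').trans (hag'.mono hB1), ?_⟩
  · rintro c ⟨hc1, hc2⟩
    by_cases hc : c ∈ box2 B
    · rcases h3 ⟨hc1, hc⟩ with h | h
      · exact Or.inl (Or.inl h)
      · exact Or.inr (Or.inl h)
    · by_cases hc' : c ∈ box2 (S n B)
      · exact Or.inr (Or.inr ⟨hc1, hc', hc⟩)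
      · exact Or.inl (Or.inr ⟨hc1, hc2, hc'⟩)
  · rintro τ rfl
    refine ⟨fun x hx hx' => ?_, fun x hx hx' => ?_⟩
    · refine ⟨C, S n B, h1.trans (box2_mono hB1), ZC_anti subset_union_left hx, ?_⟩
      exact hG.mono ((qpt_agree (S n B) C2 z1).trans (hx'.mono hB2)) le_rfl he1
    · exact ⟨C1', S n (S n B), hC1'.trans (box2_mono hB2), hx, hG'.mono hx' le_rfl he2⟩

end Pool.Agent.V11258.SG
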