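import Pool.Agent.V11258.SG.Fusion

namespace Pool.Agent.V11258.SG

open Set Filter

def Le (q p : Cond) : Prop := p.X ⊆ q.X ∧ p.Φ ⊆ q.Φ

theorem Le.refl (p : Cond) : Le p p := ⟨subset_rfl, subset_rfl⟩
theorem Le.trans {r q p : Cond} (h : Le r q) (h' : Le q p) : Le r p :=
  ⟨h'.1.trans h.1, h'.2.trans h.2⟩

theorem finset_subset_of_mono {α : Type*} {Y : ℕ → Set α} (hY : Monotone Y) (F : Finset α)
    (hF : (F : Set α) ⊆ ⋃ k, Y k) : ∃ k, (F : Set α) ⊆ Y k := by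
  classical
  induction F using Finset.induction_on with
  | empty => exact ⟨0, by simp⟩
  | insert a s ha ih =>
    rw [Finset.coe_insert, insert_subset_iff] at hF
    obtain ⟨k, hk⟩ := ih hF.2
    obtain ⟨l, hl⟩ := mem_iUnion.mp hF.1
    refine ⟨max k l, ?_⟩
    rw [Finset.coe_insert, insert_subset_iff]
    exact ⟨hY (le_max_right _ _) hl, hk.trans (hY (le_max_left _ _))⟩

theorem lower_bound {p : ℕ → Cond} (h : ∀ k, Le (p (k+1)) (p k)) : ∃ q, ∀ k, Le q (p k) := by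
  have hX : Monotone fun k => (p k).X := monotone_nat_of_le_succ fun k => (h k).1
  have hΦ : Monotone fun k => (p k).Φ := monotone_nat_of_le_succ fun k => (h k).2
  refine ⟨⟨⋃ k, (p k).X, ⋃ k, (p k).Φ, countable_iUnion fun k => (p k).cX,
    countable_iUnion fun k => (p k).cΦ, (p 0).hQ.trans (subset_iUnion (fun k => (p k).X) 0), ?_, ?_, ?_⟩,
    fun k => ⟨subset_iUnion (fun k => (p k).X) k, subset_iUnion (fun k => (p k).Φ) k⟩⟩
  · intro x hx n
    obtain ⟨k, hk⟩ := mem_iUnion.mp hx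
    exact (p k).row x hk n
  · intro E hE
    obtain ⟨k, hk⟩ := finset_subset_of_mono hΦ E hE
    exact (p k).adv E hk
  · intro E hE F hF
    obtain ⟨k, hk⟩ := finset_subset_of_mono hΦ E hE
    obtain ⟨l, hl⟩ := finset_subset_of_mono hX F hF
    exact (p (max k l)).sfip E (hk.trans (hΦ (le_max_left _ _))) F (hl.trans (hX (le_max_right _ _)))

theorem exists_cond : Nonempty Cond := by
  refine ⟨⟨Q, ∅, Q_countable, countable_empty, subset_rfl, ?_, ?_, ?_⟩⟩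
  · rintro _ ⟨B, C, s, hC, hs, rfl⟩ n
    refine ⟨B, fun m hm => ⟨B, qpt_true B C s n m B ?_ le_rfl⟩⟩
    intro h
    exact absurd (hC h).2 (not_lt.mpr hm)
  · intro E hE
    have : E = ∅ := by
      rw [Finset.eq_empty_iff_forall_notMem]
      intro τ hτ
      exact hE hτ
    subst this
    refine ⟨fun n => n, fun B => (eventually_ge_atTop B).mono fun n hn => ⟨hn, ?_⟩⟩
    have := Adv.triv (n := n) hn
    simpa using this
  · intro E hE F hF
    have : E = ∅ := by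
      rw [Finset.eq_empty_iff_forall_notMem]
      intro τ hτ
      exact hE hτ
    subst this
    exact Frequently.of_forall fun n => by simp

/-- Adding two points. -/
theorem add_points (p : Cond) (x x' : Z) (hx : ∀ n, ∃ M, ∀ m, M ≤ m → ∃ k, x (n, m, k) = true)
    (hx' : ∀ n, ∃ M, ∀ m, M ≤ m → ∃ k, x' (n, m, k) = true)
    (h : ∀ E : Finset Prom, (E : Set Prom) ⊆ p.Φ → ∀ F : Finset Z, (F : Set Z) ⊆ p.X →
        ∃ᶠ n in atTop, (∀ τ ∈ E, ∀ y ∈ F, H τ n y) ∧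
          ∀ τ ∈ E, D (τ.1 n) (τ.2 n) x ∧ D (τ.1 n) (τ.2 n) x') :
    ∃ q, Le q p ∧ x ∈ q.X ∧ x' ∈ q.X := by
  classical
  refine ⟨⟨insert x (insert x' p.X), p.Φ, (p.cX.insert x').insert x, p.cΦ,
    p.hQ.trans ((subset_insert _ _).trans (subset_insert _ _)), ?_, p.adv, ?_⟩,
    ⟨(subset_insert _ _).trans (subset_insert _ _), subset_rfl⟩, mem_insert _ _,
    mem_insert_of_mem _ (mem_insert _ _)⟩
  · rintro y (rfl | rfl | hy)
    · exact hx
    · exact hx'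
    · exact p.row y hy
  · intro E hE F hF
    have h1 := h E hE (F.filter (· ∈ p.X)) (by
      intro y hy
      exact (Finset.mem_filter.mp (Finset.mem_coe.mp hy)).2)
    refine h1.mono fun n hn τ hτ y hy => ?_
    rcases hF (Finset.mem_coe.mpr hy) with rfl | rfl | hy'
    · exact Or.inl (hn.2 τ hτ).1
    · exact Or.inl (hn.2 τ hτ).2
    · exact hn.1 τ hτ y (Finset.mem_filter.mpr ⟨hy, hy'⟩)

/-- Density for functions. -/
theorem dense_fun (p : Cond) (f : ℕ → ℕ) : ∃ q, Le q p ∧ ∃ x ∈ q.X, ∃ x' ∈ q.X,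
    ∀ n, (∀ k, x (n, f n, k) = false) ∨ (∀ k, x' (n, f n, k) = false) := by
  obtain ⟨x, x', _, _, _, h1, h2, h3, h4⟩ := fusion p (Γ := {c | c.2 = f c.1}) (C0 := ∅) (C0' := ∅)
    (B0 := 0) (z0 := fun _ => true) (z0' := fun _ => true) (fun _ _ => True) (by simp) (by simp)
    (by rintro c ⟨_, h⟩; exact absurd h.1 (Nat.not_lt_zero _)) (by intro c hc; exact absurd hc (by simp))
    (by intro c hc; exact absurd hc (by simp))
    (fun j C1 B1 z1 _ _ _ _ h _ => ⟨B1, z1, le_rfl, h, agree.refl _ _, fun _ _ => trivial⟩)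
  have hrow : ∀ y : Z, (∀ c, c ∉ (∅ : Set (ℕ × ℕ)) ∪ {c | c.2 = f c.1} → ∃ k, y (c.1, c.2, k) = true) →
      ∀ n, ∃ M, ∀ m, M ≤ m → ∃ k, y (n, m, k) = true := by
    intro y hy n
    refine ⟨f n + 1, fun m hm => hy (n, m) ?_⟩
    rintro (h | h)
    · exact h
    · have : m = f n := h
      omega
  obtain ⟨q, hq, hxq, hxq'⟩ := add_points p x x' (hrow x h2) (hrow x' h3) h4
  exact ⟨q, hq, x, hxq, x', hxq', fun n => h1 (n, f n) rfl⟩

/-- Uniformization of the extension property. -/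
theorem uniformize {V : ℕ → Set Z} {B : ℕ}
    (h : ∀ C z, C ⊆ box2 B → z ∈ ZC C → ∃ B1, B ≤ B1 ∧ ∃ z1 ∈ ZC C, agree B z z1 ∧
      ∃ m0, Good V C z1 B1 m0) :
    ∃ S M, B ≤ S ∧ ∀ C z, C ⊆ box2 B → z ∈ ZC C → ∃ z1 ∈ ZC C, agree B z z1 ∧ Good V C z1 S M := by
  classical
  have h' : ∀ p : Set (ℕ × ℕ) × Set (ℕ × ℕ × ℕ), ∃ b m : ℕ, p.1 ⊆ box2 B → ind p.2 ∈ ZC p.1 →
      B ≤ b ∧ ∃ z1 ∈ ZC p.1, agree B (ind p.2) z1 ∧ Good V p.1 z1 b m := by
    intro p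
    by_cases h1 : p.1 ⊆ box2 B ∧ ind p.2 ∈ ZC p.1
    · obtain ⟨b, hb, z1, hz1, ha, m, hG⟩ := h p.1 _ h1.1 h1.2
      exact ⟨b, m, fun _ _ => ⟨hb, z1, hz1, ha, hG⟩⟩
    · exact ⟨0, 0, fun a b => absurd ⟨a, b⟩ h1⟩
  choose b m hbm using h'
  let T : Set (Set (ℕ × ℕ) × Set (ℕ × ℕ × ℕ)) := {C | C ⊆ box2 B} ×ˢ {A | A ⊆ box3 B}
  have hT : T.Finite := (box2_finite B).finite_subsets.prod (box3_finite B).finite_subsets
  obtain ⟨S, hS⟩ := (hT.image b).bddAbove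
  obtain ⟨M, hM⟩ := (hT.image m).bddAbove
  refine ⟨max B S, M, le_max_left _ _, fun C z hC hz => ?_⟩
  obtain ⟨A, hA, hA'⟩ := agree_ind B z
  have hag : agree B z (ind A) := fun i hi => Bool.eq_iff_iff.mpr ((hA' i hi).trans (ind_iff A i).symm)
  have hindC : ind A ∈ ZC C := by
    intro c hc k
    by_contra hne
    have h1 : ind A (c.1, c.2, k) = true := by simpa using hne
    have h2 : (c.1, c.2, k) ∈ A := (ind_iff A _).mp h1
    have h3 := hag _ (hA h2)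
    rw [h1, hz c hc k] at h3
    exact absurd h3 (by simp)
  have hmem : (C, A) ∈ T := ⟨hC, hA⟩
  obtain ⟨h1, z1, hz1, ha, hG⟩ := hbm (C, A) hC hindC
  refine ⟨z1, hz1, hag.trans ha, hG.mono (agree.refl _ _) ?_ ?_⟩
  · exact (hS ⟨_, hmem, rfl⟩).trans (le_max_right _ _)
  · exact hM ⟨_, hmem, rfl⟩

/-- running maximum of a countable family of functions -/
theorem exists_bound (g : ℕ → ℕ → ℕ) : ∃ G : ℕ → ℕ, (∀ n, n ≤ G n) ∧ ∀ i, ∀ᶠ n in atTop, g i n ≤ G n := by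
  refine ⟨fun n => n + ∑ i ∈ Finset.range (n+1), g i n, fun n => Nat.le_add_right _ _, fun i => ?_⟩
  refine (eventually_ge_atTop i).mono fun n hn => ?_
  have : g i n ≤ ∑ i ∈ Finset.range (n+1), g i n :=
    Finset.single_le_sum (f := fun i => g i n) (fun _ _ => Nat.zero_le _) (Finset.mem_range.mpr (by omega))
  show g i n ≤ n + ∑ i ∈ Finset.range (n+1), g i n
  omega

/-- Density for clopen sequences. -/
theorem dense_cov (p : Cond) (V : ℕ → ℕ → Set Z) : ∃ q, Le q p ∧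
    ((∃ x ∈ q.X, ∃ n, ∀ j, ∃ m, j ≤ m ∧ x ∉ V n m) ∨ ∃ e, (V, e) ∈ q.Φ) := by
  classical
  by_cases h1 : ∃ n B C z, C ⊆ box2 B ∧ z ∈ ZC C ∧ ∀ B1, B ≤ B1 → ∀ z1 ∈ ZC C, agree B z z1 →
      ∀ m0, ¬ Good (V n) C z1 B1 m0
  · obtain ⟨n, B, C, z, hC, hz, hbad⟩ := h1
    obtain ⟨x, x', hx, hx', hP, _, h2, h3, h4⟩ := fusion p (Γ := C) (C0 := C) (C0' := C)
      (B0 := B) (z0 := z) (z0' := z) (fun j x => ∃ m, j ≤ m ∧ x ∉ V n m) hC hC
      (fun c hc => Or.inl hc.1) hz hz (by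
        intro j C1 B1 z1 e1 e2 e3 e4 e5 e6
        have hCC : C1 = C := subset_antisymm (e2.trans (union_subset subset_rfl subset_rfl)) e1
        subst hCC
        have := hbad B1 e4 z1 e5 e6 j
        unfold Good at this
        push Not at this
        obtain ⟨m, hm, y, hy, hag, B', hB', hbad'⟩ := this
        exact ⟨B', y, hB', hy, hag, fun x hx => ⟨m, hm, hbad' x hx.1 hx.2⟩⟩)
    have hrow : ∀ y : Z, (∀ c, c ∉ C ∪ C → ∃ k, y (c.1, c.2, k) = true) →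
        ∀ n, ∃ M, ∀ m, M ≤ m → ∃ k, y (n, m, k) = true := by
      intro y hy n
      refine ⟨B, fun m hm => hy (n, m) ?_⟩
      rw [union_self]
      intro h
      exact absurd (hC h).2 (not_lt.mpr hm)
    obtain ⟨q, hq, hxq, _⟩ := add_points p x x' (hrow x h2) (hrow x' h3) h4
    exact ⟨q, hq, Or.inl ⟨x, hxq, n, hP⟩⟩
  by_cases h2 : ∃ x ∈ p.X, ∃ n, ∀ j, ∃ m, j ≤ m ∧ x ∉ V n m
  · exact ⟨p, Le.refl p, Or.inl h2⟩
  push Not at h1 h2
  have h1' : ∀ n B, ∃ S M, B ≤ S ∧ ∀ C z, C ⊆ box2 B → z ∈ ZC C →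
      ∃ z1 ∈ ZC C, agree B z z1 ∧ Good (V n) C z1 S M := by
    intro n B
    exact uniformize fun C z hC hz => h1 n B C z hC hz
  choose S M hS hstep using h1'
  choose! h hh using h2
  -- the functions `T E`
  choose T hT using fun E : {E : Finset Prom // (E : Set Prom) ⊆ p.Φ} => p.adv E.1 E.2
  have hEc : Countable {E : Finset Prom // (E : Set Prom) ⊆ p.Φ} := (finsets_countable p.cΦ).to_subtype
  have : Nonempty {E : Finset Prom // (E : Set Prom) ⊆ p.Φ} := ⟨⟨∅, by simp⟩⟩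
  obtain ⟨ε, hε⟩ := exists_surjective_nat {E : Finset Prom // (E : Set Prom) ⊆ p.Φ}
  obtain ⟨G, hG1, hG2⟩ := exists_bound fun i n => T (ε i) n
  have hXne : p.X.Nonempty := ⟨qpt 0 ∅ (fun _ => true), p.hQ ⟨0, ∅, _, by simp, by
    intro c hc; exact absurd hc (by simp), rfl⟩⟩
  obtain ⟨ξ, hξ⟩ := p.cX.exists_eq_range hXne
  obtain ⟨e1, _, he1⟩ := exists_bound fun i n => h (ξ i) n
  let e : ℕ → ℕ := fun n => max (e1 n) (max (M n (G n)) (M n (S n (G n))))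
  have hGT : ∀ (E : Finset Prom) (hE : (E : Set Prom) ⊆ p.Φ), ∀ᶠ n in atTop, T ⟨E, hE⟩ n ≤ G n := by
    intro E hE
    obtain ⟨i, hi⟩ := hε ⟨E, hE⟩
    rw [← hi]
    exact hG2 i
  have hold : ∀ x ∈ p.X, ∀ᶠ n in atTop, ∀ m, e n ≤ m → x ∈ V n m := by
    intro x hx
    rw [hξ] at hx
    obtain ⟨i, rfl⟩ := hx
    refine (he1 i).mono fun n hn m hm => hh _ (hξ ▸ ⟨i, rfl⟩) n m ?_
    exact hn.trans ((le_max_left _ _).trans hm)
  refine ⟨⟨p.X, insert (V, e) p.Φ, p.cX, p.cΦ.insert _, p.hQ, p.row, ?_, ?_⟩,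
    ⟨subset_rfl, subset_insert _ _⟩, Or.inr ⟨e, mem_insert _ _⟩⟩
  · intro E hE
    have hE' : ((E.erase (V, e) : Finset Prom) : Set Prom) ⊆ p.Φ := by
      intro τ hτ
      have h3 := Finset.mem_erase.mp (Finset.mem_coe.mp hτ)
      exact (hE (Finset.mem_coe.mpr h3.2)).resolve_left h3.1
    refine ⟨fun n => S n (S n (G n)), fun B => ?_⟩
    filter_upwards [hT ⟨_, hE'⟩ B, hGT _ hE'] with n hn1 hn2
    have hb1 : G n ≤ S n (S n (G n)) := (hS n _).trans (hS n _)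
    refine ⟨hn1.1.trans (hn2.trans hb1), ?_⟩
    have a1 := (hn1.2.comp (Adv.triv hn2) hn1.1 hn2).comp (Adv.step (V := V) (e := e) (S := S) (M := M)
      (hS n) (hstep n) (B := G n) ((le_max_left _ _).trans (le_max_right _ _))
      ((le_max_right _ _).trans (le_max_right _ _))) (hn1.1.trans hn2) hb1
    refine a1.anti ?_
    intro τ hτ
    by_cases h3 : τ = (V, e)
    · exact Or.inr h3
    · exact Or.inl (Or.inl (Finset.mem_coe.mpr (Finset.mem_erase.mpr ⟨h3, Finset.mem_coe.mp hτ⟩)))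
  · intro E hE F hF
    have hE' : ((E.erase (V, e) : Finset Prom) : Set Prom) ⊆ p.Φ := by
      intro τ hτ
      have h3 := Finset.mem_erase.mp (Finset.mem_coe.mp hτ)
      exact (hE (Finset.mem_coe.mpr h3.2)).resolve_left h3.1
    have h3 : ∀ᶠ n in atTop, ∀ x ∈ F, ∀ m, e n ≤ m → x ∈ V n m := by
      rw [Finset.eventually_all]
      exact fun x hx => hold x (hF (Finset.mem_coe.mpr hx))
    refine ((p.sfip _ hE' F hF).and_eventually h3).mono fun n hn τ hτ x hx => ?_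
    by_cases h4 : τ = (V, e)
    · rw [h4]
      exact Or.inr (hn.2 x hx)
    · exact hn.1 τ (Finset.mem_erase.mpr ⟨h4, hτ⟩) x hx

end Pool.Agent.V11258.SG
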