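import Pool.Agent.V11258.SG.Base

namespace Pool.Agent.V11258.SG

open Set Filter

/-- What a finite set of promises gives at a point. -/
def H (τ : Prom) (n : ℕ) (x : Z) : Prop := D (τ.1 n) (τ.2 n) x ∨ ∀ m, τ.2 n ≤ m → x ∈ τ.1 n m

structure Cond where
  X : Set Z
  Φ : Set Prom
  cX : X.Countable
  cΦ : Φ.Countable
  hQ : Q ⊆ X
  row : ∀ x ∈ X, ∀ n, ∃ M, ∀ m, M ≤ m → ∃ k, x (n, m, k) = true
  adv : ∀ E : Finset Prom, (E : Set Prom) ⊆ Φ →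
    ∃ T : ℕ → ℕ, ∀ B, ∀ᶠ n in atTop, B ≤ T n ∧ Adv E n B (T n)
  sfip : ∀ E : Finset Prom, (E : Set Prom) ⊆ Φ → ∀ F : Finset Z, (F : Set Z) ⊆ X →
    ∃ᶠ n in atTop, ∀ τ ∈ E, ∀ x ∈ F, H τ n x

/-- State of the fusion. -/
structure St (Γ C0 C0' : Set (ℕ × ℕ)) (B0 : ℕ) (z0 z0' : Z) where
  B : ℕ
  C : Set (ℕ × ℕ)
  C' : Set (ℕ × ℕ)
  z : Z
  z' : Z
  hC : C ⊆ box2 B
  hC' : C' ⊆ box2 B
  hΓ : Γ ∩ box2 B ⊆ C ∪ C'
  hz : z ∈ ZC C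
  hz' : z' ∈ ZC C'
  hCΓ : C ⊆ C0 ∪ Γ
  hCΓ' : C' ⊆ C0' ∪ Γ
  hC0 : C0 ⊆ C
  hC0' : C0' ⊆ C'
  hB : B0 ≤ B
  hag : agree B0 z0 z
  hag' : agree B0 z0' z'

/-- the block of a state -/
def blk (C : Set (ℕ × ℕ)) (B : ℕ) (z : Z) : Set Z := {x | x ∈ ZC C ∧ agree B z x}

theorem blk_sub {C C' : Set (ℕ × ℕ)} {B B' : ℕ} {z z' : Z} (hC : C ⊆ C') (hB : B ≤ B')
    (h : agree B z z') : blk C' B' z' ⊆ blk C B z := fun _ hx =>
  ⟨ZC_anti hC hx.1, h.trans (hx.2.mono hB)⟩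

theorem step_exists {Γ C0 C0' : Set (ℕ × ℕ)} {B0 : ℕ} {z0 z0' : Z} (P : Z → Prop)
    (side : ∀ C1 B1 z1, C0 ⊆ C1 → C1 ⊆ C0 ∪ Γ → C1 ⊆ box2 B1 → B0 ≤ B1 → z1 ∈ ZC C1 →
      agree B0 z0 z1 → ∃ B2 z2, B1 ≤ B2 ∧ z2 ∈ ZC C1 ∧ agree B1 z1 z2 ∧
        ∀ x ∈ blk C1 B2 z2, P x)
    (s : St Γ C0 C0' B0 z0 z0') (E : Set Prom) (n T : ℕ) (hT : s.B ≤ T) (hadv : Adv E n s.B T) :
    ∃ s' : St Γ C0 C0' B0 z0 z0', s.B < s'.B ∧ s.C ⊆ s'.C ∧ s.C' ⊆ s'.C' ∧ agree s.B s.z s'.z ∧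
      agree s.B s.z' s'.z' ∧
      (∀ τ ∈ E, (∀ x ∈ blk s'.C s'.B s'.z, D (τ.1 n) (τ.2 n) x) ∧
        (∀ x ∈ blk s'.C' s'.B s'.z', D (τ.1 n) (τ.2 n) x)) ∧
      (∀ x ∈ blk s'.C s'.B s'.z, P x) ∧
      (∀ i < s'.B, ∀ j < s'.B, (i, j) ∉ s'.C → ∃ k < s'.B, s'.z (i, j, k) = true) ∧
      (∀ i < s'.B, ∀ j < s'.B, (i, j) ∉ s'.C' → ∃ k < s'.B, s'.z' (i, j, k) = true) := by
  obtain ⟨C1, C1', z1, z1', a1, a2, a3, a4, a5, a6, a7, a8, a9, a10, a11, a12⟩ :=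
    hadv Γ s.C s.C' s.z s.z' s.hC s.hC' s.hΓ s.hz s.hz'
  obtain ⟨B2, z2, b1, b2, b3, b4⟩ := side C1 T z1 (s.hC0.trans a1)
    (a3.trans (union_subset s.hCΓ subset_union_right)) a5 (s.hB.trans hT) a8
    (s.hag.trans (a10.mono s.hB))
  let C2' := C1' ∪ (Γ ∩ (box2 B2 \ box2 T))
  have hC2'z : qpt T C2' z1' ∈ ZC C2' := by
    refine qpt_ZC T _ C1' z1' a9 (union_subset subset_union_left ?_)
    rintro c ⟨_, _, hc⟩
    exact Or.inr hc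
  let C3 := C1 ∪ (Γ ∩ (box2 (B2+1) \ box2 B2))
  have hC3z : qpt B2 C3 z2 ∈ ZC C3 := by
    refine qpt_ZC B2 _ C1 z2 b2 (union_subset subset_union_left ?_)
    rintro c ⟨_, _, hc⟩
    exact Or.inr hc
  have hC2'z' : qpt B2 C2' (qpt T C2' z1') ∈ ZC C2' :=
    qpt_ZC B2 _ C2' _ hC2'z subset_union_left
  have hTB : T ≤ B2 := b1
  refine ⟨⟨B2+1, C3, C2', qpt B2 C3 z2, qpt B2 C2' (qpt T C2' z1'), ?_, ?_, ?_, hC3z, hC2'z', ?_, ?_,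
    (s.hC0.trans a1).trans subset_union_left, (s.hC0'.trans a2).trans subset_union_left,
    s.hB.trans (hT.trans (hTB.trans (Nat.le_succ _))), ?_, ?_⟩, ?_, a1.trans subset_union_left,
    a2.trans subset_union_left, ?_, ?_, ?_, ?_, ?_, ?_⟩
  · exact union_subset (a5.trans (box2_mono (hTB.trans (Nat.le_succ _)))) (inter_subset_right.trans sdiff_subset)
  · exact (union_subset (a6.trans (box2_mono hTB)) (inter_subset_right.trans sdiff_subset)).trans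
      (box2_mono (Nat.le_succ _))
  · rintro c ⟨hc1, hc2⟩
    by_cases hc : c ∈ box2 T
    · rcases a7 ⟨hc1, hc⟩ with h | h
      · exact Or.inl (Or.inl h)
      · exact Or.inr (Or.inl h)
    · by_cases hc' : c ∈ box2 B2
      · exact Or.inr (Or.inr ⟨hc1, hc', hc⟩)
      · exact Or.inl (Or.inr ⟨hc1, hc2, hc'⟩)
  · exact union_subset (a3.trans (union_subset s.hCΓ subset_union_right))
      (inter_subset_left.trans subset_union_right)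
  · exact union_subset (a4.trans (union_subset s.hCΓ' subset_union_right))
      (inter_subset_left.trans subset_union_right)
  · exact (s.hag.trans (a10.mono s.hB)).trans
      ((b3.mono (s.hB.trans hT)).trans ((qpt_agree B2 C3 z2).mono (s.hB.trans (hT.trans hTB))))
  · exact (s.hag'.trans (a11.mono s.hB)).trans
      (((qpt_agree T C2' z1').mono (s.hB.trans hT)).trans
        ((qpt_agree B2 C2' _).mono (s.hB.trans (hT.trans hTB))))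
  · show s.B < B2 + 1
    omega
  · exact a10.trans ((b3.mono hT).trans ((qpt_agree B2 C3 z2).mono (hT.trans hTB)))
  · exact a11.trans (((qpt_agree T C2' z1').mono hT).trans
        ((qpt_agree B2 C2' _).mono (hT.trans hTB)))
  · intro τ hτ
    refine ⟨fun x hx => ?_, fun x hx => ?_⟩
    · have h1 : x ∈ blk C1 T z1 := blk_sub subset_union_left (hTB.trans (Nat.le_succ _))
        (b3.trans ((qpt_agree B2 C3 z2).mono hTB)) hx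
      exact (a12 τ hτ).1 x h1.1 h1.2
    · have h1 : x ∈ blk C1' T z1' := blk_sub subset_union_left (hTB.trans (Nat.le_succ _))
        ((qpt_agree T C2' z1').trans ((qpt_agree B2 C2' _).mono hTB)) hx
      exact (a12 τ hτ).2 x h1.1 h1.2
  · intro x hx
    exact b4 x (blk_sub subset_union_left (Nat.le_succ _) (qpt_agree B2 C3 z2) hx)
  · intro i hi j hj hij
    exact ⟨B2, Nat.lt_succ_self _, qpt_true B2 C3 z2 i j B2 hij le_rfl⟩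
  · intro i hi j hj hij
    exact ⟨B2, Nat.lt_succ_self _, qpt_true B2 C2' _ i j B2 hij le_rfl⟩

theorem finsets_countable {α : Type*} {s : Set α} (hs : s.Countable) :
    {E : Finset α | (E : Set α) ⊆ s}.Countable := by
  have h := Set.countable_ofPred_finite_subset hs
  refine (h.preimage_of_injOn (f := fun E : Finset α => (E : Set α))
    (fun a _ b _ e => Finset.coe_injective e)).mono ?_
  intro E hE
  exact ⟨Finset.finite_toSet E, hE⟩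

/-- The limit of a coherent sequence. -/
theorem limit {C : ℕ → Set (ℕ × ℕ)} {B : ℕ → ℕ} {z : ℕ → Z} (hB : ∀ j, B j < B (j+1))
    (hC : ∀ j, C j ⊆ C (j+1)) (hz : ∀ j, z j ∈ ZC (C j)) (ha : ∀ j, agree (B j) (z j) (z (j+1))) :
    ∃ x : Z, ∀ j, x ∈ blk (C j) (B j) (z j) := by
  have hBm : StrictMono B := strictMono_nat_of_lt_succ hB
  have hCm : Monotone C := monotone_nat_of_le_succ hC
  have hag : ∀ i j, i ≤ j → agree (B i) (z i) (z j) := by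
    intro i j hij
    induction j, hij using Nat.le_induction with
    | base => exact agree.refl _ _
    | succ n hn ih => exact ih.trans ((ha n).mono (hBm.monotone hn))
  let x : Z := fun i => z (i.1 + i.2.1 + i.2.2 + 1) i
  have key : ∀ j, ∀ i ∈ box3 (B j), x i = z j i := by
    intro j i hi
    have h0 : i ∈ box3 (B (i.1 + i.2.1 + i.2.2 + 1)) := by
      have : i.1 + i.2.1 + i.2.2 + 1 ≤ B (i.1 + i.2.1 + i.2.2 + 1) := hBm.le_apply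
      exact ⟨by omega, by omega, by omega⟩
    rcases le_total j (i.1 + i.2.1 + i.2.2 + 1) with h | h
    · exact (hag _ _ h i hi).symm
    · exact hag _ _ h i h0
  refine ⟨x, fun j => ⟨?_, fun i hi => (key j i hi).symm⟩⟩
  intro c hc k
  have h0 : ((c.1, c.2, k) : ℕ × ℕ × ℕ) ∈ box3 (B (max j (c.1 + c.2 + k + 1))) := by
    have : max j (c.1 + c.2 + k + 1) ≤ B (max j (c.1 + c.2 + k + 1)) := hBm.le_apply
    have h2 := le_max_right j (c.1 + c.2 + k + 1)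
    refine ⟨?_, ?_, ?_⟩ <;> simp only [] <;> omega
  rw [key _ _ h0]
  exact hz _ c (hCm (le_max_left _ _) hc) k

theorem fusion (p : Cond) {Γ C0 C0' : Set (ℕ × ℕ)} {B0 : ℕ} {z0 z0' : Z} (P : ℕ → Z → Prop)
    (h0 : C0 ⊆ box2 B0) (h0' : C0' ⊆ box2 B0) (hΓ0 : Γ ∩ box2 B0 ⊆ C0 ∪ C0') (hz0 : z0 ∈ ZC C0)
    (hz0' : z0' ∈ ZC C0')
    (side : ∀ j C1 B1 z1, C0 ⊆ C1 → C1 ⊆ C0 ∪ Γ → C1 ⊆ box2 B1 → B0 ≤ B1 → z1 ∈ ZC C1 →
      agree B0 z0 z1 → ∃ B2 z2, B1 ≤ B2 ∧ z2 ∈ ZC C1 ∧ agree B1 z1 z2 ∧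
        ∀ x ∈ blk C1 B2 z2, P j x) :
    ∃ x x' : Z, x ∈ ZC C0 ∧ x' ∈ ZC C0' ∧ (∀ j, P j x) ∧
      (∀ c ∈ Γ, (∀ k, x (c.1, c.2, k) = false) ∨ (∀ k, x' (c.1, c.2, k) = false)) ∧
      (∀ c, c ∉ C0 ∪ Γ → ∃ k, x (c.1, c.2, k) = true) ∧
      (∀ c, c ∉ C0' ∪ Γ → ∃ k, x' (c.1, c.2, k) = true) ∧
      ∀ E : Finset Prom, (E : Set Prom) ⊆ p.Φ → ∀ F : Finset Z, (F : Set Z) ⊆ p.X →
        ∃ᶠ n in atTop, (∀ τ ∈ E, ∀ y ∈ F, H τ n y) ∧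
          ∀ τ ∈ E, D (τ.1 n) (τ.2 n) x ∧ D (τ.1 n) (τ.2 n) x' := by
  classical
  -- enumeration of requirements
  let R : Set (Finset Prom × Finset Z) := {r | (r.1 : Set Prom) ⊆ p.Φ ∧ (r.2 : Set Z) ⊆ p.X}
  have hRc : R.Countable := by
    have h1 : {E : Finset Prom | (E : Set Prom) ⊆ p.Φ}.Countable :=
      finsets_countable p.cΦ
    have h2 : {F : Finset Z | (F : Set Z) ⊆ p.X}.Countable :=
      finsets_countable p.cX
    exact (h1.prod h2).mono fun r hr => hr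
  have hRn : R.Nonempty := ⟨(∅, ∅), by simp [R]⟩
  obtain ⟨r, hr⟩ := hRc.exists_eq_range hRn
  have hrm : ∀ j, r j ∈ R := fun j => hr ▸ ⟨j, rfl⟩
  choose T hT using fun E : {E : Finset Prom // (E : Set Prom) ⊆ p.Φ} => p.adv E.1 E.2
  have hstep : ∀ j (s : St Γ C0 C0' B0 z0 z0'), ∃ s' : St Γ C0 C0' B0 z0 z0', s.B < s'.B ∧
      s.C ⊆ s'.C ∧ s.C' ⊆ s'.C' ∧ agree s.B s.z s'.z ∧ agree s.B s.z' s'.z' ∧
      (∃ n, (Nat.unpair j).2 ≤ n ∧ (∀ τ ∈ (r (Nat.unpair j).1).1, ∀ y ∈ (r (Nat.unpair j).1).2, H τ n y) ∧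
        (∀ τ ∈ (r (Nat.unpair j).1).1, (∀ x ∈ blk s'.C s'.B s'.z, D (τ.1 n) (τ.2 n) x) ∧
        (∀ x ∈ blk s'.C' s'.B s'.z', D (τ.1 n) (τ.2 n) x))) ∧
      (∀ x ∈ blk s'.C s'.B s'.z, P j x) ∧
      (∀ i < s'.B, ∀ j < s'.B, (i, j) ∉ s'.C → ∃ k < s'.B, s'.z (i, j, k) = true) ∧
      (∀ i < s'.B, ∀ j < s'.B, (i, j) ∉ s'.C' → ∃ k < s'.B, s'.z' (i, j, k) = true) := by
    intro j s
    obtain ⟨hE, hF⟩ := hrm (Nat.unpair j).1
    obtain ⟨n, hn1, ⟨hn2, hn3⟩, hn4⟩ := ((p.sfip _ hE _ hF).and_eventually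
      ((hT ⟨_, hE⟩ s.B).and (eventually_ge_atTop (Nat.unpair j).2))).exists
    obtain ⟨s', c1, c2, c3, c4, c5, c6, c7, c8, c9⟩ :=
      step_exists (P j) (side j) s _ n _ hn2 hn3
    exact ⟨s', c1, c2, c3, c4, c5, ⟨n, hn4, hn1, fun τ hτ => c6 τ hτ⟩, c7, c8, c9⟩
  choose nx hnx1 hnx2 hnx3 hnx4 hnx5 hnx6 hnx7 hnx8 hnx9 using hstep
  let s0 : St Γ C0 C0' B0 z0 z0' := ⟨B0, C0, C0', z0, z0', h0, h0', hΓ0, hz0, hz0',
    subset_union_left, subset_union_left, subset_rfl, subset_rfl, le_rfl, agree.refl _ _, agree.refl _ _⟩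
  let s : ℕ → St Γ C0 C0' B0 z0 z0' := fun j => Nat.rec s0 (fun j a => nx j a) j
  have hs : ∀ j, s (j+1) = nx j (s j) := fun j => rfl
  have hBlt : ∀ j, (s j).B < (s (j+1)).B := fun j => hnx1 j (s j)
  obtain ⟨x, hx⟩ := limit (C := fun j => (s j).C) (B := fun j => (s j).B) (z := fun j => (s j).z)
    hBlt (fun j => hnx2 j (s j)) (fun j => (s j).hz) (fun j => hnx4 j (s j))
  obtain ⟨x', hx'⟩ := limit (C := fun j => (s j).C') (B := fun j => (s j).B) (z := fun j => (s j).z')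
    hBlt (fun j => hnx3 j (s j)) (fun j => (s j).hz') (fun j => hnx5 j (s j))
  have hBm : StrictMono (fun j => (s j).B) := strictMono_nat_of_lt_succ hBlt
  have hbig : ∀ c : ℕ × ℕ, ∃ j, c ∈ box2 (s (j+1)).B := by
    intro c
    refine ⟨c.1 + c.2, ?_⟩
    have : c.1 + c.2 + 1 ≤ (s (c.1 + c.2 + 1)).B := hBm.le_apply
    exact ⟨by omega, by omega⟩
  refine ⟨x, x', (hx 0).1, (hx' 0).1, fun j => hnx7 j (s j) x (hx (j+1)), ?_, ?_, ?_, ?_⟩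
  · intro c hc
    obtain ⟨j, hj⟩ := hbig c
    rcases (s (j+1)).hΓ ⟨hc, hj⟩ with h | h
    · exact Or.inl fun k => (hx (j+1)).1 c h k
    · exact Or.inr fun k => (hx' (j+1)).1 c h k
  · intro c hc
    obtain ⟨j, hj⟩ := hbig c
    have hcn : c ∉ (s (j+1)).C := fun h => hc ((s (j+1)).hCΓ h)
    obtain ⟨k, hk, hk'⟩ := hnx8 j (s j) c.1 hj.1 c.2 hj.2 hcn
    refine ⟨k, ?_⟩
    have := (hx (j+1)).2 (c.1, c.2, k) ⟨hj.1, hj.2, hk⟩
    rw [← this]; exact hk'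
  · intro c hc
    obtain ⟨j, hj⟩ := hbig c
    have hcn : c ∉ (s (j+1)).C' := fun h => hc ((s (j+1)).hCΓ' h)
    obtain ⟨k, hk, hk'⟩ := hnx9 j (s j) c.1 hj.1 c.2 hj.2 hcn
    refine ⟨k, ?_⟩
    have := (hx' (j+1)).2 (c.1, c.2, k) ⟨hj.1, hj.2, hk⟩
    rw [← this]; exact hk'
  · intro E hE F hF
    have : (E, F) ∈ range r := hr ▸ ⟨hE, hF⟩
    obtain ⟨i, hi⟩ := this
    rw [frequently_atTop]
    intro N
    obtain ⟨n, hn1, hn2, hn3⟩ := hnx6 (Nat.pair i N) (s (Nat.pair i N))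
    rw [Nat.unpair_pair] at hn1 hn2 hn3
    simp only [hi] at hn2 hn3
    exact ⟨n, hn1, hn2, fun τ hτ => ⟨(hn3 τ hτ).1 x (hx (Nat.pair i N + 1)),
      (hn3 τ hτ).2 x' (hx' (Nat.pair i N + 1))⟩⟩

end Pool.Agent.V11258.SG
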