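import Pool.Agent.V11258.SG.Dense
import Pool.Agent.V11258.BG.Cond

namespace Pool.Agent.V11258.SG

open Set Filter Cardinal TopologicalSpace

theorem mk_opens_le (Y : Type) [TopologicalSpace Y] [SecondCountableTopology Y] : #(Opens Y) ≤ 𝔠 := by
  let f : Opens Y → Set (countableBasis Y) := fun U => {b | (b : Set Y) ⊆ U}
  have hf : Function.Injective f := by
    intro U V e
    have key : ∀ U V : Opens Y, f U = f V → (U : Set Y) ⊆ V := by
      intro U V e x hx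
      obtain ⟨b, hb, hxb, hbU⟩ := (isBasis_countableBasis Y).exists_subset_of_mem_open hx U.2
      have : (⟨b, hb⟩ : countableBasis Y) ∈ f U := hbU
      rw [e] at this
      exact this hxb
    exact Opens.ext (subset_antisymm (key U V e) (key V U e.symm))
  refine (mk_le_of_injective hf).trans ?_
  rw [mk_set]
  have : #(countableBasis Y) ≤ ℵ₀ := le_aleph0_iff_set_countable.mpr (countable_countableBasis Y)
  calc (2 : Cardinal) ^ #(countableBasis Y) ≤ 2 ^ ℵ₀ := power_le_power_left two_ne_zero this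
    _ = 𝔠 := two_power_aleph0

/-- The tasks. -/
abbrev Task : Type := (ℕ → ℕ) × (ℕ → ℕ → Opens Z)

theorem mk_task : #Task ≤ 𝔠 := by
  have h1 : #(ℕ → ℕ → Opens Z) ≤ 𝔠 := by
    simp only [mk_pi, prod_const, lift_id, mk_nat]
    calc (#(Opens Z) ^ ℵ₀) ^ ℵ₀ ≤ (𝔠 ^ ℵ₀) ^ ℵ₀ :=
          Cardinal.power_le_power_right (Cardinal.power_le_power_right (mk_opens_le Z))
      _ = 𝔠 := by rw [continuum_power_aleph0, continuum_power_aleph0]
  have h2 : #(ℕ → ℕ) ≤ 𝔠 := by simp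
  calc #Task = #(ℕ → ℕ) * #(ℕ → ℕ → Opens Z) := by simp only [Cardinal.mk_prod, lift_id]
    _ ≤ 𝔠 * 𝔠 := mul_le_mul' h2 h1
    _ = 𝔠 := continuum_mul_self

theorem main (CH : (𝔠 : Cardinal.{0}) = ℵ₁) : ∃ X : Set Z, Q ⊆ X ∧
    (∀ x ∈ X, ∀ n, ∃ M, ∀ m, M ≤ m → ∃ k, x (n, m, k) = true) ∧
    (∀ f : ℕ → ℕ, ∃ x ∈ X, ∃ x' ∈ X,
      ∀ n, (∀ k, x (n, f n, k) = false) ∨ (∀ k, x' (n, f n, k) = false)) ∧
    ∀ V V' : ℕ → ℕ → Set Z, (∀ n m, IsOpen (V n m)) → (∀ n m, IsOpen (V' n m)) →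
      (∀ n m, X ⊆ V n m ∪ V' n m) → (∀ n m, ∀ x ∈ X, x ∈ V n m → x ∉ V' n m) →
      (∀ x ∈ X, ∀ n, ∀ᶠ m in atTop, x ∈ V n m) →
      ∃ e : ℕ → ℕ, ∀ F : Finset Z, (F : Set Z) ⊆ X → ∃ᶠ n in atTop, (F : Set Z) ⊆ V n (e n) := by
  classical
  obtain ⟨r, wo, hr⟩ := Cardinal.exists_ord_eq Task
  have hcount : ∀ i : Task, {j | r j i}.Countable := by
    intro i
    rw [← le_aleph0_iff_set_countable, ← lt_aleph_one_iff, ← CH]
    exact lt_of_lt_of_le (Cardinal.card_typein_lt i hr) mk_task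
  let Dn : Task → Cond → Prop := fun t q =>
    (∃ x ∈ q.X, ∃ x' ∈ q.X, ∀ n, (∀ k, x (n, t.1 n, k) = false) ∨ (∀ k, x' (n, t.1 n, k) = false)) ∧
    ((∃ x ∈ q.X, ∃ n, ∀ j, ∃ m, j ≤ m ∧ x ∉ (t.2 n m : Set Z)) ∨
      ∃ e, ((fun n m => (t.2 n m : Set Z)), e) ∈ q.Φ)
  have hD : ∀ t p, ∃ q, Le q p ∧ Dn t q := by
    intro t p
    obtain ⟨p', hp', x, hx, x', hx', h1⟩ := dense_fun p t.1
    obtain ⟨q, hq, h2⟩ := dense_cov p' (fun n m => (t.2 n m : Set Z))
    exact ⟨q, hq.trans hp', ⟨x, hq.1 hx, x', hq.1 hx', h1⟩, h2⟩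
  have := exists_cond
  obtain ⟨g, hg1, hg2⟩ := BG.generic Le Le.refl (fun _ _ _ h h' => h.trans h')
    (fun p h => lower_bound h) r hcount Dn hD
  have t0 : Task := (fun _ => 0, fun _ _ => ⊥)
  let X : Set Z := ⋃ t, (g t).X
  -- finitely many elements appear together
  have hcom : ∀ t : Task, ∀ F : Finset Z, (F : Set Z) ⊆ X → ∃ t', (F : Set Z) ⊆ (g t').X ∧ Le (g t') (g t) := by
    intro t F
    induction F using Finset.induction_on with
    | empty => intro _; exact ⟨t, by simp, Le.refl _⟩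
    | insert a s ha ih =>
      intro hF
      rw [Finset.coe_insert, insert_subset_iff] at hF
      obtain ⟨t1, h1, h2⟩ := ih hF.2
      obtain ⟨t2, h3⟩ := mem_iUnion.mp hF.1
      rcases trichotomous_of r t1 t2 with h | h | h
      · refine ⟨t2, ?_, (hg2 _ _ h).trans h2⟩
        rw [Finset.coe_insert, insert_subset_iff]
        exact ⟨h3, h1.trans (hg2 _ _ h).1⟩
      · subst h
        refine ⟨t1, ?_, h2⟩
        rw [Finset.coe_insert, insert_subset_iff]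
        exact ⟨h3, h1⟩
      · refine ⟨t1, ?_, h2⟩
        rw [Finset.coe_insert, insert_subset_iff]
        exact ⟨(hg2 _ _ h).1 h3, h1⟩
  have hQX : Q ⊆ X := (g t0).hQ.trans (subset_iUnion (fun t => (g t).X) t0)
  refine ⟨X, hQX, ?_, ?_, ?_⟩
  · intro x hx
    obtain ⟨t, ht⟩ := mem_iUnion.mp hx
    exact (g t).row x ht
  · intro f
    obtain ⟨x, hx, x', hx', h⟩ := (hg1 (f, fun _ _ => ⊥)).1
    exact ⟨x, mem_iUnion.mpr ⟨_, hx⟩, x', mem_iUnion.mpr ⟨_, hx'⟩, h⟩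
  · intro V V' hV hV' hcov hdis hγ
    let t : Task := (fun _ => 0, fun n m => ⟨V n m, hV n m⟩)
    rcases (hg1 t).2 with ⟨x, hx, n, hbad⟩ | ⟨e, he⟩
    · exfalso
      obtain ⟨j, hj⟩ := eventually_atTop.mp (hγ x (mem_iUnion.mpr ⟨t, hx⟩) n)
      obtain ⟨m, hm, hxm⟩ := hbad j
      exact hxm (hj m hm)
    · refine ⟨e, fun F hF => ?_⟩
      obtain ⟨t', h1, h2⟩ := hcom t F hF
      have h3 := (g t').sfip {((fun n m => V n m), e)} (by
        intro τ hτ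
        rw [Finset.coe_singleton, mem_singleton_iff] at hτ
        rw [hτ]
        exact h2.2 he) F h1
      refine h3.mono fun n hn x hx => ?_
      rcases hn _ (Finset.mem_singleton_self _) x (Finset.mem_coe.mp hx) with h4 | h4
      · exact lemmaA hQX (hV n) (hV' n) (hcov n) (hdis n) (hF hx) h4 le_rfl
      · exact h4 _ le_rfl

end Pool.Agent.V11258.SG
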